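import Pool.Agent.Work.MP_ec1f6a_co.Adjacent

/-!
Two edges with a common vertex are negatively correlated in every weighted forest measure.

The proof shows that, with a vertex `a` singled out, the weighted forest sum is the value at the
zero matrix of a matrix function that does not vanish when its argument is a Hermitian matrix plus
a diagonal matrix with entries in the upper half-plane. The edge recursion is a determinant
identity. Edges at `a` translate diagonal entries, so the forest sum is real stable in the weights
of the edges at `a`.
-/

set_option autoImplicit false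
open scoped Classical

namespace Pool.Agent.Results.MP_ec1f6a_co.AdjacentEdges

/-- For every finite simple graph, every vertex `a`, all distinct edges `e`, `f` at `a`, and all
real weights that are nonnegative on the edges avoiding `a` and have `0 ≤ p e * p f`, the weighted
sum over forests containing `e` and `f`, times the sum over all forests, is at most the sum over
forests containing `e` times the sum over forests containing `f`. -/
theorem result :
    ∀ (n : ℕ) (G : SimpleGraph (Fin n)) (p : Sym2 (Fin n) → ℝ) (a : Fin n),
      (∀ x ∈ G.edgeFinset, a ∉ x → 0 ≤ p x) →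
      ∀ e ∈ G.edgeFinset, ∀ f ∈ G.edgeFinset, e ≠ f → a ∈ e → a ∈ f → 0 ≤ p e * p f →
        (∑ E' ∈ G.edgeFinset.powerset.filter
            (fun E' : Finset (Sym2 (Fin n)) => e ∈ E' ∧ f ∈ E' ∧
              (SimpleGraph.fromEdgeSet (E' : Set (Sym2 (Fin n)))).IsAcyclic),
            ∏ x ∈ E', p x) *
        (∑ E' ∈ G.edgeFinset.powerset.filter
            (fun E' : Finset (Sym2 (Fin n)) =>
              (SimpleGraph.fromEdgeSet (E' : Set (Sym2 (Fin n)))).IsAcyclic),
            ∏ x ∈ E', p x)
        ≤
        (∑ E' ∈ G.edgeFinset.powerset.filter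
            (fun E' : Finset (Sym2 (Fin n)) => e ∈ E' ∧
              (SimpleGraph.fromEdgeSet (E' : Set (Sym2 (Fin n)))).IsAcyclic),
            ∏ x ∈ E', p x) *
        (∑ E' ∈ G.edgeFinset.powerset.filter
            (fun E' : Finset (Sym2 (Fin n)) => f ∈ E' ∧
              (SimpleGraph.fromEdgeSet (E' : Set (Sym2 (Fin n)))).IsAcyclic),
            ∏ x ∈ E', p x) := by
  intro n G p a hp e he f hf hef hae haf hpp
  have h := Pool.Agent.Work.MP_ec1f6a_co.adjacent G.edgeFinset
    (fun g hg => G.not_isDiag_of_mem_edgeFinset hg) p a hp e f he hf hef hae haf hpp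
  rw [← Pool.Agent.Work.MP_ec1f6a_co.Z_filter, ← Pool.Agent.Work.MP_ec1f6a_co.Z_filter,
    ← Pool.Agent.Work.MP_ec1f6a_co.Z_filter, ← Pool.Agent.Work.MP_ec1f6a_co.Z_filter] at h
  exact h

end Pool.Agent.Results.MP_ec1f6a_co.AdjacentEdges
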