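import Pool.Agent.Work.MP_ec1f6a_co.Cofacial

/-!
Two edges on a common face of a planar graph are negatively correlated in every weighted measure
on connected spanning subgraphs.

Planarity is used through the dual: a multigraph on the faces, given by the map `ends` that sends
every edge to the pair of faces on its two sides, such that an edge set is connected and spanning
if and only if the dual edges of its complement contain no cycle (Whitney).
-/

set_option autoImplicit false
open scoped Classical

namespace Pool.Agent.Results.MP_ec1f6a_co.CofacialConn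

/-- The edges of `A`, seen as edges of the multigraph in which the edge `x` joins the two vertices
in `ends x`, contain no cycle: no loop, no two parallel edges, and the simple graph formed by their
pairs of endpoints is acyclic. -/
def NoCycle {n m : ℕ} (ends : Sym2 (Fin n) → Sym2 (Fin m)) (A : Finset (Sym2 (Fin n))) : Prop :=
  Set.InjOn ends (A : Set (Sym2 (Fin n))) ∧ (∀ x ∈ A, ¬ (ends x).IsDiag) ∧
    (SimpleGraph.fromEdgeSet (ends '' (A : Set (Sym2 (Fin n))))).IsAcyclic

/-- Let `G` be a finite simple graph with a dual multigraph (`ends`): a set `A` of edges is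
connected and spanning if and only if the dual edges of the complement of `A` contain no cycle.
Let `e`, `f` be distinct edges whose dual edges have a common endpoint `a`. Then for all nonnegative
weights the weighted sum over connected spanning edge sets containing `e` and `f`, times the sum
over all connected spanning edge sets, is at most the sum over those containing `e` times the sum
over those containing `f`. -/
theorem result :
    ∀ (n m : ℕ) (G : SimpleGraph (Fin n)) (ends : Sym2 (Fin n) → Sym2 (Fin m)),
      (∀ A : Finset (Sym2 (Fin n)), A ⊆ G.edgeFinset →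
        ((SimpleGraph.fromEdgeSet (A : Set (Sym2 (Fin n)))).Connected ↔
          NoCycle ends (G.edgeFinset \ A))) →
      ∀ p : Sym2 (Fin n) → ℝ, (∀ x ∈ G.edgeFinset, 0 ≤ p x) →
      ∀ e ∈ G.edgeFinset, ∀ f ∈ G.edgeFinset, e ≠ f → ∀ a : Fin m, a ∈ ends e → a ∈ ends f →
        (∑ E' ∈ G.edgeFinset.powerset.filter
            (fun E' : Finset (Sym2 (Fin n)) => e ∈ E' ∧ f ∈ E' ∧
              (SimpleGraph.fromEdgeSet (E' : Set (Sym2 (Fin n)))).Connected),
            ∏ x ∈ E', p x) *
        (∑ E' ∈ G.edgeFinset.powerset.filter
            (fun E' : Finset (Sym2 (Fin n)) =>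
              (SimpleGraph.fromEdgeSet (E' : Set (Sym2 (Fin n)))).Connected),
            ∏ x ∈ E', p x)
        ≤
        (∑ E' ∈ G.edgeFinset.powerset.filter
            (fun E' : Finset (Sym2 (Fin n)) => e ∈ E' ∧
              (SimpleGraph.fromEdgeSet (E' : Set (Sym2 (Fin n)))).Connected),
            ∏ x ∈ E', p x) *
        (∑ E' ∈ G.edgeFinset.powerset.filter
            (fun E' : Finset (Sym2 (Fin n)) => f ∈ E' ∧
              (SimpleGraph.fromEdgeSet (E' : Set (Sym2 (Fin n)))).Connected),
            ∏ x ∈ E', p x) := by
  intro n m G ends hdual p hp e he f hf hef a hae haf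
  have hd : ∀ A B : Finset (Sym2 (Fin n)), A ⊆ G.edgeFinset →
      (∀ x, x ∈ B ↔ x ∈ G.edgeFinset ∧ x ∉ A) →
      ((SimpleGraph.fromEdgeSet (A : Set (Sym2 (Fin n)))).Connected ↔
        Pool.Agent.Work.MP_ec1f6a_co.MF ends B) := by
    intro A B hA hB
    have h1 : B = G.edgeFinset \ A := by
      ext x
      rw [hB, Finset.mem_sdiff]
    rw [h1]
    exact hdual A hA
  have h := Pool.Agent.Work.MP_ec1f6a_co.conn_nonneg' ends G.edgeFinset
    (fun A => (SimpleGraph.fromEdgeSet (A : Set (Sym2 (Fin n)))).Connected) hd p hp e f he hf
    hef a hae haf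
  rw [Pool.Agent.Work.MP_ec1f6a_co.mZ_filter, Pool.Agent.Work.MP_ec1f6a_co.mZ_filter,
    Pool.Agent.Work.MP_ec1f6a_co.mZ_filter, Pool.Agent.Work.MP_ec1f6a_co.mZ_filter]
  exact h

end Pool.Agent.Results.MP_ec1f6a_co.CofacialConn
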