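import Pool.Agent.Work.MP_ec1f6a_co.FourThirds2

/-!
Arbitrary pairs of edges in the weighted forest measure: the correlation of two edges is at most a
quarter of the probability that both lie in one tree. In particular the negative correlation
inequality holds up to the factor 4/3.

The proof shows that the sum over forests `F` of `p^F det (1 + N J_F)`, with `J_F` the
same-component matrix of `F`, has no zero when the imaginary part of the matrix `N` is positive
definite, and applies this to `N = s u uᵀ + t v vᵀ` with `u = e_i - e_j`, `v = e_k - e_l`.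
-/

set_option autoImplicit false
open scoped Classical

namespace Pool.Agent.Results.MP_ec1f6a_co.QuarterBound

/-- For every finite simple graph, nonnegative edge weights and distinct edges `e`, `f`, with
`M^{ef}`, `M^e`, `M^f`, `M` the weighted sums over the forests containing `e` and `f`, containing
`e`, containing `f`, and over all forests, `M_{ef}` the sum over the forests avoiding `e` and `f`,
and `C` the sum over the forests that contain `e` and `f` in one component:
`4 M^{ef} M ≤ 4 M^e M^f + M_{ef} C`. -/
theorem result :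
    ∀ (n : ℕ) (G : SimpleGraph (Fin n)) (p : Sym2 (Fin n) → ℝ),
      (∀ x ∈ G.edgeFinset, 0 ≤ p x) →
      ∀ e ∈ G.edgeFinset, ∀ f ∈ G.edgeFinset, e ≠ f →
        4 * ((∑ E' ∈ G.edgeFinset.powerset.filter
            (fun E' : Finset (Sym2 (Fin n)) => e ∈ E' ∧ f ∈ E' ∧
              (SimpleGraph.fromEdgeSet (E' : Set (Sym2 (Fin n)))).IsAcyclic),
            ∏ x ∈ E', p x) *
          (∑ E' ∈ G.edgeFinset.powerset.filter
            (fun E' : Finset (Sym2 (Fin n)) =>
              (SimpleGraph.fromEdgeSet (E' : Set (Sym2 (Fin n)))).IsAcyclic),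
            ∏ x ∈ E', p x))
        ≤
        4 * ((∑ E' ∈ G.edgeFinset.powerset.filter
            (fun E' : Finset (Sym2 (Fin n)) => e ∈ E' ∧
              (SimpleGraph.fromEdgeSet (E' : Set (Sym2 (Fin n)))).IsAcyclic),
            ∏ x ∈ E', p x) *
          (∑ E' ∈ G.edgeFinset.powerset.filter
            (fun E' : Finset (Sym2 (Fin n)) => f ∈ E' ∧
              (SimpleGraph.fromEdgeSet (E' : Set (Sym2 (Fin n)))).IsAcyclic),
            ∏ x ∈ E', p x)) +
        (∑ E' ∈ G.edgeFinset.powerset.filter
            (fun E' : Finset (Sym2 (Fin n)) => e ∉ E' ∧ f ∉ E' ∧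
              (SimpleGraph.fromEdgeSet (E' : Set (Sym2 (Fin n)))).IsAcyclic),
            ∏ x ∈ E', p x) *
          (∑ E' ∈ G.edgeFinset.powerset.filter
            (fun E' : Finset (Sym2 (Fin n)) => e ∈ E' ∧ f ∈ E' ∧
              (SimpleGraph.fromEdgeSet (E' : Set (Sym2 (Fin n)))).IsAcyclic ∧
              ∃ a ∈ e, ∃ b ∈ f,
                (SimpleGraph.fromEdgeSet (E' : Set (Sym2 (Fin n)))).Reachable a b),
            ∏ x ∈ E', p x) := by
  intro n G p hp e he f hf hef
  have hE : ∀ g ∈ G.edgeFinset, ¬ g.IsDiag := fun g hg => G.not_isDiag_of_mem_edgeFinset hg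
  have h := Pool.Agent.Work.MP_ec1f6a_co.almost G.edgeFinset hE p hp e f he hf hef
  rw [Pool.Agent.Work.MP_ec1f6a_co.Z_filter, Pool.Agent.Work.MP_ec1f6a_co.Z_filter,
    Pool.Agent.Work.MP_ec1f6a_co.Z_filter, Pool.Agent.Work.MP_ec1f6a_co.Z_filter,
    Pool.Agent.Work.MP_ec1f6a_co.Z_filter, Pool.Agent.Work.MP_ec1f6a_co.Z_filter]
  exact h

end Pool.Agent.Results.MP_ec1f6a_co.QuarterBound
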