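import Pool.Agent.Work.MP_ec1f6a_co.RC13

/-!
Two disjoint edges `ab`, `cd` are negatively correlated in the weighted forest measure of every
graph in which the remaining vertices split into classes without edges between different classes,
each class being attached to `a, b, c, d` by a rank-one array of weights. This contains all pairs
of disjoint edges of all complete graphs with constant weights, and all graphs in which the
vertices other than `a, b, c, d` are independent (arbitrary weights).

Proof: a class acts on the four terminals through its forest polynomial only, which has only real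
zeros; so it can be replaced by independent vertices, and for these the inequality is an explicit
sum of squares in logarithmic coordinates.
-/

set_option autoImplicit false
open scoped Classical

namespace Pool.Agent.Results.MP_ec1f6a_co.RankOneBlocks

/-- Let `ab` and `cd` be disjoint edges of a finite simple graph with nonnegative weights, and let
`β` be a partition of the other vertices such that adjacent vertices other than `a, b, c, d` lie in
the same class and the weight of the pair `u v` (`0` for a non-edge), for `u` other and `v` one of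
`a, b, c, d`, is `x u * r (β u) v`. Then the forest sums satisfy the negative correlation
inequality for `ab` and `cd`. -/
theorem result :
    ∀ (n : ℕ) (G : SimpleGraph (Fin n)) (p : Sym2 (Fin n) → ℝ),
      (∀ y ∈ G.edgeFinset, 0 ≤ p y) →
      ∀ a b c d : Fin n, s(a, b) ∈ G.edgeFinset → s(c, d) ∈ G.edgeFinset →
        a ≠ c → a ≠ d → b ≠ c → b ≠ d →
      ∀ (β : Fin n → Fin n) (x : Fin n → ℝ) (r : Fin n → Fin n → ℝ),
        (∀ u, 0 ≤ x u) → (∀ k v, 0 ≤ r k v) →
        (∀ u v, u ∉ ({a, b, c, d} : Set (Fin n)) → v ∉ ({a, b, c, d} : Set (Fin n)) →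
          G.Adj u v → β u = β v) →
        (∀ u v, u ∉ ({a, b, c, d} : Set (Fin n)) → v ∈ ({a, b, c, d} : Set (Fin n)) →
          (if G.Adj u v then p s(u, v) else 0) = x u * r (β u) v) →
        (∑ E' ∈ G.edgeFinset.powerset.filter
            (fun E' : Finset (Sym2 (Fin n)) => s(a, b) ∈ E' ∧ s(c, d) ∈ E' ∧
              (SimpleGraph.fromEdgeSet (E' : Set (Sym2 (Fin n)))).IsAcyclic),
            ∏ y ∈ E', p y) *
        (∑ E' ∈ G.edgeFinset.powerset.filter
            (fun E' : Finset (Sym2 (Fin n)) =>
              (SimpleGraph.fromEdgeSet (E' : Set (Sym2 (Fin n)))).IsAcyclic),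
            ∏ y ∈ E', p y)
        ≤
        (∑ E' ∈ G.edgeFinset.powerset.filter
            (fun E' : Finset (Sym2 (Fin n)) => s(a, b) ∈ E' ∧
              (SimpleGraph.fromEdgeSet (E' : Set (Sym2 (Fin n)))).IsAcyclic),
            ∏ y ∈ E', p y) *
        (∑ E' ∈ G.edgeFinset.powerset.filter
            (fun E' : Finset (Sym2 (Fin n)) => s(c, d) ∈ E' ∧
              (SimpleGraph.fromEdgeSet (E' : Set (Sym2 (Fin n)))).IsAcyclic),
            ∏ y ∈ E', p y) := by
  intro n G p hp a b c d he hf hac had hbc hbd β x r hx hr h1 h2
  have hmem : ∀ u v, s(u, v) ∈ G.edgeFinset ↔ G.Adj u v := by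
    intro u v
    rw [SimpleGraph.mem_edgeFinset, SimpleGraph.mem_edgeSet]
  have h := Pool.Agent.Work.MP_ec1f6a_co.blocks_core G.edgeFinset
    (fun g hg => G.not_isDiag_of_mem_edgeFinset hg) p hp a b c d he hf hac had hbc hbd β x r hx hr
    (fun u v hu hv hs => h1 u v (by simpa using hu) (by simpa using hv) ((hmem u v).1 hs))
    (fun u v hu hv => by
      rw [← h2 u v (by simpa using hu) (by simpa using hv)]
      simp only [hmem])
  rw [← Pool.Agent.Work.MP_ec1f6a_co.Z_filter, ← Pool.Agent.Work.MP_ec1f6a_co.Z_filter,
    ← Pool.Agent.Work.MP_ec1f6a_co.Z_filter, ← Pool.Agent.Work.MP_ec1f6a_co.Z_filter] at h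
  exact h

end Pool.Agent.Results.MP_ec1f6a_co.RankOneBlocks
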